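import Mathlib

/-!
Valuations of sums of two `k`-th powers at primes that are not `1` modulo `2 ^ (v + 1)`.
-/

open Finset

namespace Pool.Agent.MP_3d0a02_nt.E

/-- a prime not `1` modulo `2 ^ (v + 1)` dividing `x ^ k + y ^ k` divides both terms -/
theorem dvd_both {k v q x y : ℕ} (hk : k ≠ 0) (hvk : 2 ^ v ∣ k) (hq : q.Prime) (h2 : q ≠ 2)
    (hb : q % 2 ^ (v + 1) ≠ 1) (h : q ∣ x ^ k + y ^ k) : q ∣ x ∧ q ∣ y := by
  have : Fact q.Prime := ⟨hq⟩
  have hy : q ∣ y := by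
    by_contra hy
    obtain ⟨m, rfl⟩ := hvk
    have y0 : (y : ZMod q) ≠ 0 := fun e => hy ((ZMod.natCast_eq_zero_iff y q).1 e)
    have e : (x : ZMod q) ^ (2 ^ v * m) + (y : ZMod q) ^ (2 ^ v * m) = 0 := by
      exact_mod_cast (ZMod.natCast_eq_zero_iff _ q).2 h
    have e2 : q ∣ (((x : ZMod q) / y) ^ m).val ^ 2 ^ v + 1 := by
      rw [← ZMod.natCast_eq_zero_iff]
      push_cast
      rw [ZMod.natCast_zmod_val, ← pow_mul, mul_comm m, div_pow]
      field_simp
      linear_combination e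
    obtain ⟨t, ht⟩ := Nat.pow_pow_add_primeFactors_one_lt hq h2 e2
    apply hb
    rw [ht, Nat.mul_add_mod_of_lt (Nat.one_lt_two_pow (by omega))]
  refine ⟨hq.dvd_of_dvd_pow (n := k) ?_, hy⟩
  exact (Nat.dvd_add_left (dvd_pow hy hk)).1 h

theorem val_sum {k v q : ℕ} (hk : k ≠ 0) (hvk : 2 ^ v ∣ k) (hq : q.Prime) (h2 : q ≠ 2)
    (hb : q % 2 ^ (v + 1) ≠ 1) : ∀ (y x : ℕ), 0 < y → k ∣ padicValNat q (x ^ k + y ^ k) := by
  have : Fact q.Prime := ⟨hq⟩
  intro y
  induction y using Nat.strong_induction_on with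
  | _ y ih =>
    intro x hy
    by_cases h : q ∣ x ^ k + y ^ k
    · obtain ⟨⟨x', rfl⟩, ⟨y', rfl⟩⟩ := dvd_both hk hvk hq h2 hb h
      have y0 : 0 < y' := Nat.pos_of_mul_pos_left hy
      have hl : y' < q * y' := by nlinarith [hq.two_le]
      have e : (q * x') ^ k + (q * y') ^ k = q ^ k * (x' ^ k + y' ^ k) := by ring
      rw [e, padicValNat.mul (pow_ne_zero _ hq.ne_zero) (by positivity), padicValNat.prime_pow]
      exact dvd_add dvd_rfl (ih y' hl x' y0)
    · rw [padicValNat.eq_zero_of_not_dvd h]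
      exact dvd_zero _

theorem odd_pow_one {k v q : ℕ} (hvk : 2 ^ v ∣ k) (hq : Odd q) :
    (q : ZMod (2 ^ (v + 1))) ^ k = 1 := by
  obtain ⟨m, rfl⟩ := hvk
  have h : q ^ Nat.totient (2 ^ (v + 1)) ≡ 1 [MOD 2 ^ (v + 1)] :=
    Nat.ModEq.pow_totient (Nat.Coprime.pow_right _ (Nat.coprime_two_right.2 hq))
  rw [Nat.totient_prime_pow_succ Nat.prime_two] at h
  have h' := (ZMod.natCast_eq_natCast_iff _ _ _).2 h
  push_cast at h'
  rw [mul_one] at h'
  rw [pow_mul, h', one_pow]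

/-- an odd number is `1` modulo `2 ^ (v + 1)` after correcting its valuations -/
theorem prod_one {k v F : ℕ} (hvk : 2 ^ v ∣ k) (hF : Odd F) (e : ℕ → ℕ)
    (h : ∀ q, q.Prime → q ∣ F → q % 2 ^ (v + 1) ≠ 1 → k ∣ padicValNat q F + e q) :
    ((F * ∏ q ∈ F.primeFactors.filter (fun q => q % 2 ^ (v + 1) ≠ 1), q ^ e q : ℕ) :
      ZMod (2 ^ (v + 1))) = 1 := by
  have F0 : F ≠ 0 := hF.pos.ne'
  have e1 : F = ∏ q ∈ F.primeFactors, q ^ padicValNat q F := by
    conv_lhs => rw [← Nat.prod_factorization_pow_eq_self F0]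
    refine prod_congr rfl fun q hq => ?_
    rw [Nat.factorization_def _ (Nat.prime_of_mem_primeFactors hq)]
  rw [prod_filter]
  nth_rewrite 1 [e1]
  rw [← prod_mul_distrib, Nat.cast_prod]
  refine prod_eq_one fun q hq => ?_
  have hp := Nat.prime_of_mem_primeFactors hq
  have hd := Nat.dvd_of_mem_primeFactors hq
  by_cases hb : q % 2 ^ (v + 1) = 1
  · have : (q : ZMod (2 ^ (v + 1))) = 1 := by
      rw [← ZMod.natCast_mod, hb, Nat.cast_one]
    simp [hb, this]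
  · rw [if_pos hb, ← pow_add, Nat.cast_pow]
    exact odd_pow_one (hvk.trans (h q hp hd hb)) (Odd.of_dvd_nat hF hd)

theorem corr_dvd (k : ℕ) (S : Finset ℕ) (hS : ∀ q ∈ S, q.Prime) :
    ∏ q ∈ S, q ^ padicValNat q k ∣ k := by
  refine Finset.prod_dvd_of_isRelPrime (fun p hp q hq hne => ?_) fun q _ => pow_padicValNat_dvd
  exact Nat.coprime_iff_isRelPrime.1
    (Nat.coprime_pow_primes _ _ (hS p hp) (hS q hq) hne)

/-- lifting the exponent, for a natural factor of `b - y` -/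
theorem lte {k q b F s j : ℕ} {y : ℤ} (hk : k ≠ 0) (hq : q.Prime) (h2 : q ≠ 2) (hs : s ≠ 0)
    (hF : F ≠ 0) (e1 : (b : ℤ) ^ k - y ^ k = s) (e2 : (b : ℤ) - y = (2 ^ j * F : ℕ))
    (hd : q ∣ F) (hb : ¬ q ∣ b) : padicValNat q s = padicValNat q F + padicValNat q k := by
  have : Fact q.Prime := ⟨hq⟩
  have h := Int.emultiplicity_pow_sub_pow hq (hq.odd_of_ne_two h2) (x := b) (y := y)
    (by rw [e2]; exact_mod_cast hd.mul_left _) (by exact_mod_cast hb) k
  rw [e1, e2, Int.natCast_emultiplicity, Int.natCast_emultiplicity,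
    ← padicValNat_eq_emultiplicity hs, ← padicValNat_eq_emultiplicity hk,
    ← padicValNat_eq_emultiplicity (by positivity), padicValNat.mul (by positivity) hF,
    padicValNat.eq_zero_of_not_dvd (n := 2 ^ j) (fun h => h2
      ((Nat.prime_dvd_prime_iff_eq hq Nat.prime_two).1 (hq.dvd_of_dvd_pow h))), zero_add] at h
  exact_mod_cast h

end Pool.Agent.MP_3d0a02_nt.E
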