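import Pool.Agent.MP_3d0a02_nt.E.Main

/-!
Reduction to primitive solutions.
-/

open Finset

namespace Pool.Agent.MP_3d0a02_nt.E

/-- the divisibility conclusion for one term -/
def Dv (k v x : ℕ) : Prop :=
  2 ^ v ∣ x ∧ (∀ l, l.Prime → l ∣ k → l % 2 ^ (v + 1) ≠ 1 → l ∣ x) ∧
    ((∀ D, D ∣ k → D % 2 ^ (v + 1) ≠ 2 ^ v + 1) → 2 ^ (v + 1) ∣ x)

/-- the size conclusion -/
def Sz (k v w : ℕ) : Prop :=
  (2 ^ v) ^ k < 2 * k * w ∧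
    (∀ l, l.Prime → l ∣ k → l % 4 = 3 → Nat.gcd k (l - 1) = 2 → l ^ k < 2 * k * w) ∧
    ((∀ D, D ∣ k → D % 2 ^ (v + 1) ≠ 2 ^ v + 1) → (2 ^ (v + 1)) ^ k < 2 * k * w)

variable {k v a b c d : ℕ}

theorem Sol.dv (H : Sol k v a b c d) : Dv k v c := by
  refine ⟨H.two.1, fun l hl hlk hb => ?_, H.more⟩
  by_cases h2 : l = 2
  · exact h2 ▸ H.hc.two_dvd
  · exact (H.ell hl h2 hb hlk).1

theorem Dv.mul {x : ℕ} (h : Dv k v x) (g : ℕ) : Dv k v (g * x) :=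
  ⟨h.1.mul_left g, fun l hl hlk hb => (h.2.1 l hl hlk hb).mul_left g,
    fun hD => (h.2.2 hD).mul_left g⟩

theorem Sol.sz (H : Sol k v a b c d) : Sz k v b :=
  ⟨H.size_two H.two.1 H.symm.two.1, fun _ => H.size,
    fun hD => H.size_two (H.more hD) (H.symm.more hD)⟩

theorem Sz.mul {w g : ℕ} (h : Sz k v w) (hg : 0 < g) : Sz k v (g * w) :=
  have e : 2 * k * w ≤ 2 * k * (g * w) := Nat.mul_le_mul_left _ (Nat.le_mul_of_pos_left w hg)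
  ⟨h.1.trans_le e, fun l hl hlk h3 h2 => (h.2.1 l hl hlk h3 h2).trans_le e,
    fun hD => (h.2.2 hD).trans_le e⟩

theorem pow_mod_four (hk : 6 ≤ k) (he : Even k) (x : ℕ) : x ^ k % 4 = x % 2 := by
  obtain ⟨m, rfl⟩ := he
  obtain ⟨n, rfl⟩ : ∃ n, m = n + 1 := ⟨m - 1, by omega⟩
  rw [← two_mul, pow_mul]
  rcases Nat.even_or_odd' x with ⟨t, rfl | rfl⟩
  · rw [show ((2 * t) ^ 2) ^ (n + 1) = 4 * (t ^ 2 * ((2 * t) ^ 2) ^ n) by ring]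
    omega
  · rw [show (2 * t + 1) ^ 2 = 4 * (t ^ 2 + t) + 1 by ring, Nat.pow_mod, Nat.mul_add_mod]
    simp

theorem prim_three (hk : 6 ≤ k) (hv : 1 ≤ v) (hvk : 2 ^ v ∣ k) {x y z w : ℕ} (hx : 0 < x)
    (hy : 0 < y) (hz : 0 < z) (hp : ∀ q, q.Prime → q ∣ x → q ∣ y → q ∣ z → False)
    (h : x ^ k + y ^ k + z ^ k = w ^ k) :
    (Dv k v y ∧ Dv k v z ∨ Dv k v x ∧ Dv k v z ∨ Dv k v x ∧ Dv k v y) ∧ Sz k v w := by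
  have he : Even k := even_iff_two_dvd.2 ((dvd_pow_self 2 (by omega)).trans hvk)
  have h1 := pow_mod_four hk he x
  have h2 := pow_mod_four hk he y
  have h3 := pow_mod_four hk he z
  have h4 := pow_mod_four hk he w
  have h5 := hp 2 Nat.prime_two
  have hc : x % 2 = 1 ∧ y % 2 = 0 ∧ z % 2 = 0 ∨ y % 2 = 1 ∧ x % 2 = 0 ∧ z % 2 = 0 ∨
      z % 2 = 1 ∧ x % 2 = 0 ∧ y % 2 = 0 := by
    have h6 : ¬ (2 ∣ x ∧ 2 ∣ y ∧ 2 ∣ z) := fun e => h5 e.1 e.2.1 e.2.2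
    omega
  rcases hc with ⟨e1, e2, e3⟩ | ⟨e1, e2, e3⟩ | ⟨e1, e2, e3⟩
  · have H : Sol k v x w y z := ⟨hk, hv, hvk, hy, hz, Nat.odd_iff.2 e1, Nat.even_iff.2 e2,
      Nat.even_iff.2 e3, hp, h⟩
    exact ⟨Or.inl ⟨H.dv, H.symm.dv⟩, H.sz⟩
  · have H : Sol k v y w x z := ⟨hk, hv, hvk, hx, hz, Nat.odd_iff.2 e1, Nat.even_iff.2 e2,
      Nat.even_iff.2 e3, fun q hq a b c => hp q hq b a c, by omega⟩
    exact ⟨Or.inr (Or.inl ⟨H.dv, H.symm.dv⟩), H.sz⟩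
  · have H : Sol k v z w x y := ⟨hk, hv, hvk, hx, hy, Nat.odd_iff.2 e1, Nat.even_iff.2 e2,
      Nat.even_iff.2 e3, fun q hq a b c => hp q hq b c a, by omega⟩
    exact ⟨Or.inr (Or.inr ⟨H.dv, H.symm.dv⟩), H.sz⟩

theorem all_three (hk : 6 ≤ k) (hv : 1 ≤ v) (hvk : 2 ^ v ∣ k) {x y z w : ℕ} (hx : 0 < x)
    (hy : 0 < y) (hz : 0 < z) (h : x ^ k + y ^ k + z ^ k = w ^ k) :
    (Dv k v y ∧ Dv k v z ∨ Dv k v x ∧ Dv k v z ∨ Dv k v x ∧ Dv k v y) ∧ Sz k v w := by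
  obtain ⟨g, hg⟩ : ∃ g, g = Nat.gcd x (Nat.gcd y z) := ⟨_, rfl⟩
  have g0 : 0 < g := hg ▸ Nat.gcd_pos_of_pos_left _ hx
  obtain ⟨x', ex⟩ : g ∣ x := hg ▸ Nat.gcd_dvd_left _ _
  obtain ⟨y', ey⟩ : g ∣ y := hg ▸ (Nat.gcd_dvd_right _ _).trans (Nat.gcd_dvd_left _ _)
  obtain ⟨z', ez⟩ : g ∣ z := hg ▸ (Nat.gcd_dvd_right _ _).trans (Nat.gcd_dvd_right _ _)
  have e : g ^ k * (x' ^ k + y' ^ k + z' ^ k) = w ^ k := by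
    rw [← h, ex, ey, ez]
    ring
  obtain ⟨w', rfl⟩ : g ∣ w := (Nat.pow_dvd_pow_iff (by omega : k ≠ 0)).1 ⟨_, e.symm⟩
  rw [mul_pow] at e
  have hp : ∀ q, q.Prime → q ∣ x' → q ∣ y' → q ∣ z' → False := fun q hq a b c => by
    have h1 : g * q ∣ g * 1 := by
      rw [mul_one]
      nth_rewrite 2 [hg]
      exact Nat.dvd_gcd (ex ▸ Nat.mul_dvd_mul_left g a)
        (Nat.dvd_gcd (ey ▸ Nat.mul_dvd_mul_left g b) (ez ▸ Nat.mul_dvd_mul_left g c))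
    exact hq.one_lt.ne' (Nat.dvd_one.1 (Nat.dvd_of_mul_dvd_mul_left g0 h1))
  obtain ⟨h1, h2⟩ := prim_three hk hv hvk (Nat.pos_of_mul_pos_left (ex ▸ hx))
    (Nat.pos_of_mul_pos_left (ey ▸ hy)) (Nat.pos_of_mul_pos_left (ez ▸ hz)) hp
    (Nat.eq_of_mul_eq_mul_left (pow_pos g0 k) e)
  refine ⟨?_, h2.mul g0⟩
  rw [ex, ey, ez]
  exact h1.imp (And.imp (·.mul g) (·.mul g))
    (Or.imp (And.imp (·.mul g) (·.mul g)) (And.imp (·.mul g) (·.mul g)))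

theorem fin_three (hk : 6 ≤ k) (hv : 1 ≤ v) (hvk : 2 ^ v ∣ k) (x : Fin 3 → ℕ) (w : ℕ)
    (hx : ∀ i, 0 < x i) (h : ∑ i, x i ^ k = w ^ k) :
    (∃ i, ∀ j, j ≠ i → Dv k v (x j)) ∧ Sz k v w := by
  rw [Fin.sum_univ_three] at h
  obtain ⟨h1, h2⟩ := all_three hk hv hvk (hx 0) (hx 1) (hx 2) h
  refine ⟨?_, h2⟩
  rcases h1 with ⟨e1, e2⟩ | ⟨e1, e2⟩ | ⟨e1, e2⟩
  · refine ⟨0, fun j hj => ?_⟩
    fin_cases j
    exacts [absurd rfl hj, e1, e2]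
  · refine ⟨1, fun j hj => ?_⟩
    fin_cases j
    exacts [e1, absurd rfl hj, e2]
  · refine ⟨2, fun j hj => ?_⟩
    fin_cases j
    exacts [e1, e2, absurd rfl hj]

end Pool.Agent.MP_3d0a02_nt.E
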