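import Pool.Agent.MP_3d0a02_nt.E.Basic

/-!
Divisibility constraints on `a ^ k + c ^ k + d ^ k = b ^ k` for even `k`.
-/

open Finset

namespace Pool.Agent.MP_3d0a02_nt.E

/-- a primitive solution with `a` odd and `c`, `d` even -/
structure Sol (k v a b c d : ℕ) : Prop where
  hk : 6 ≤ k
  hv : 1 ≤ v
  hvk : 2 ^ v ∣ k
  c0 : 0 < c
  d0 : 0 < d
  ha : Odd a
  hc : Even c
  hd : Even d
  prim : ∀ q, q.Prime → q ∣ a → q ∣ c → q ∣ d → False
  eq : a ^ k + c ^ k + d ^ k = b ^ k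

variable {k v a b c d : ℕ}

theorem Sol.symm (H : Sol k v a b c d) : Sol k v a b d c :=
  ⟨H.hk, H.hv, H.hvk, H.d0, H.c0, H.ha, H.hd, H.hc, fun q hq h1 h2 h3 => H.prim q hq h1 h3 h2,
    by rw [← H.eq]; ring⟩

theorem Sol.k0 (H : Sol k v a b c d) : k ≠ 0 := by
  have := H.hk
  omega

theorem Sol.even (H : Sol k v a b c d) : Even k :=
  even_iff_two_dvd.2 ((dvd_pow_self 2 (by have := H.hv; omega)).trans H.hvk)

theorem Sol.odd (H : Sol k v a b c d) : Odd b := by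
  have h : Odd (b ^ k) := by
    rw [← H.eq]
    exact (H.ha.pow.add_even (H.hc.pow_of_ne_zero H.k0)).add_even (H.hd.pow_of_ne_zero H.k0)
  exact (Nat.odd_pow_iff H.k0).1 h

theorem Sol.alt (H : Sol k v a b c d) : a < b := by
  have h := H.eq
  have := pow_pos H.c0 k
  exact lt_of_pow_lt_pow_left₀ k (Nat.zero_le _) (by omega)

theorem Sol.clt (H : Sol k v a b c d) : c < b := by
  have h := H.eq
  have := pow_pos H.d0 k
  exact lt_of_pow_lt_pow_left₀ k (Nat.zero_le _) (by omega)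

theorem Sol.nab (H : Sol k v a b c d) {q : ℕ} (hq : q.Prime) (h2 : q ≠ 2)
    (hb : q % 2 ^ (v + 1) ≠ 1) (h1 : q ∣ a) (h3 : q ∣ b) : False := by
  have h : q ∣ c ^ k + d ^ k := by
    refine (Nat.dvd_add_right (dvd_pow h1 H.k0)).1 ?_
    rw [← add_assoc, H.eq]
    exact dvd_pow h3 H.k0
  obtain ⟨h4, h5⟩ := dvd_both H.k0 H.hvk hq h2 hb h
  exact H.prim q hq h1 h4 h5

theorem Sol.nbc (H : Sol k v a b c d) {q : ℕ} (hq : q.Prime) (h2 : q ≠ 2)
    (hb : q % 2 ^ (v + 1) ≠ 1) (h1 : q ∣ c) (h3 : q ∣ b) : False := by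
  have h : q ∣ a ^ k + d ^ k := by
    refine (Nat.dvd_add_right (dvd_pow h1 H.k0)).1 ?_
    rw [← add_assoc, add_comm (c ^ k), H.eq]
    exact dvd_pow h3 H.k0
  exact H.nab hq h2 hb (dvd_both H.k0 H.hvk hq h2 hb h).1 h3

/-- the odd primes of the exponent -/
theorem Sol.ell (H : Sol k v a b c d) {l : ℕ} (hl : l.Prime) (h2 : l ≠ 2)
    (hb : l % 2 ^ (v + 1) ≠ 1) (hlk : l ∣ k) : l ∣ c ∧ l ∣ d := by
  refine dvd_both H.k0 H.hvk hl h2 hb ?_
  by_contra hn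
  obtain ⟨m, hm⟩ := hlk
  have m0 : m ≠ 0 := by
    rintro rfl
    exact H.k0 (by simpa using hm)
  have hvm : 2 ^ v ∣ m := by
    refine Nat.Coprime.dvd_of_dvd_mul_left ?_ (hm ▸ H.hvk)
    exact Nat.Coprime.pow_left _ (Nat.coprime_two_left.2 (hl.odd_of_ne_two h2))
  obtain ⟨E, hE⟩ := Nat.exists_eq_add_of_lt (Nat.pow_lt_pow_left H.alt m0)
  set Q := ∑ i ∈ range l, (b ^ m) ^ i * (a ^ m) ^ (l - 1 - i) with hQ
  have e1 : Q * (E + 1) = c ^ k + d ^ k := by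
    have h := Commute.geom_sum₂_mul_add (Commute.all (E + 1) (a ^ m)) l
    rw [show E + 1 + a ^ m = b ^ m by omega, ← hQ, ← pow_mul, ← pow_mul, mul_comm m, ← hm,
      ← H.eq] at h
    omega
  have e2 : (Q : ZMod (2 ^ (v + 1))) = l := by
    rw [hQ]
    push_cast
    simp [odd_pow_one hvm H.ha, odd_pow_one hvm H.odd]
  have e3 : Q % 2 ^ (v + 1) = l % 2 ^ (v + 1) := (ZMod.natCast_eq_natCast_iff' _ _ _).1 e2
  have hQo : Odd Q := by
    have h := (Nat.ModEq.of_dvd (dvd_pow_self 2 (Nat.succ_ne_zero v)) e3 : Q % 2 = l % 2)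
    rw [Nat.odd_iff, h]
    exact Nat.odd_iff.1 (hl.odd_of_ne_two h2)
  have e4 := prod_one H.hvk hQo (fun _ => 0) fun q hq hd hqb => by
    have : Fact q.Prime := ⟨hq⟩
    have q2 : q ≠ 2 := by
      rintro rfl
      exact hQo.not_two_dvd_nat hd
    have hE' : ¬ q ∣ E + 1 := by
      intro h
      have h1 : (q : ℤ) ∣ (b : ℤ) ^ m - (a : ℤ) ^ m := by
        have : (b : ℤ) ^ m - (a : ℤ) ^ m = ((E + 1 : ℕ) : ℤ) := by
          have := congrArg (Nat.cast : ℕ → ℤ) hE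
          push_cast at this ⊢
          linarith
        rw [this]
        exact_mod_cast h
      have h3 : (q : ℤ) ∣ ∑ i ∈ range l, ((b : ℤ) ^ m) ^ i * ((a : ℤ) ^ m) ^ (l - 1 - i) := by
        exact_mod_cast hd
      have h4 : q ∣ l * (a ^ m) ^ (l - 1) := by
        exact_mod_cast (dvd_geom_sum₂_iff_of_dvd_sub h1).1 h3
      rcases (Nat.Prime.dvd_mul hq).1 h4 with h5 | h5
      · obtain rfl := (Nat.prime_dvd_prime_iff_eq hq hl).1 h5
        exact hn (e1 ▸ hd.mul_right _)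
      · have h6 := hq.dvd_of_dvd_pow h5
        refine H.nab hq q2 hqb (hq.dvd_of_dvd_pow h6) (hq.dvd_of_dvd_pow (n := m) ?_)
        rw [hE, add_assoc]
        exact dvd_add h6 h
    have h := val_sum H.k0 H.hvk hq q2 hqb d c H.d0
    rwa [← e1, padicValNat.mul hQo.pos.ne' (by omega), padicValNat.eq_zero_of_not_dvd hE'] at h
  simp only [pow_zero, prod_const_one, mul_one] at e4
  apply hb
  rw [← e3, (ZMod.natCast_eq_natCast_iff' Q 1 _).1 (by simpa using e4),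
    Nat.mod_eq_of_lt (Nat.one_lt_two_pow (by omega))]

theorem Sol.pm (H : Sol k v a b c d) {F : ℕ} {y : ℤ} (hy : y = c ∨ y = -c)
    (e : (b : ℤ) - y = F) : (2 : ℤ) ^ (v + 1) ∣ F - 1 := by
  have hF : Odd F := by
    have h1 := Nat.odd_iff.1 H.odd
    have h2 := Nat.even_iff.1 H.hc
    rw [Nat.odd_iff]
    omega
  have e1 : (b : ℤ) ^ k - y ^ k = (a ^ k + d ^ k : ℕ) := by
    have h := congrArg (Nat.cast : ℕ → ℤ) H.eq
    have : y ^ k = (c : ℤ) ^ k := by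
      rcases hy with rfl | rfl
      · rfl
      · exact H.even.neg_pow _
    push_cast at h ⊢
    linarith
  have e4 := prod_one H.hvk hF (fun _ => 0) fun q hq hd hqb => by
    have q2 : q ≠ 2 := by
      rintro rfl
      exact hF.not_two_dvd_nat hd
    have h0 : q ∣ b ↔ q ∣ c := by
      have h1 : (q : ℤ) ∣ b - y := e ▸ Int.natCast_dvd_natCast.2 hd
      rw [← Int.natCast_dvd_natCast, ← Int.natCast_dvd_natCast, dvd_iff_dvd_of_dvd_sub h1]
      rcases hy with rfl | rfl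
      · rfl
      · exact dvd_neg
    have hb : ¬ q ∣ b := fun h => H.nbc hq q2 hqb (h0.1 h) h
    have h := lte (j := 0) H.k0 hq q2 (by have := H.d0; positivity) hF.pos.ne' e1
      (by simpa using e) hd hb
    rw [padicValNat.eq_zero_of_not_dvd (n := k) fun h => hb (h0.2 (H.ell hq q2 hqb h).1)] at h
    rw [← h]
    exact val_sum H.k0 H.hvk hq q2 hqb d a H.d0
  simp only [pow_zero, prod_const_one, mul_one] at e4
  have h := (ZMod.intCast_zmod_eq_zero_iff_dvd ((F : ℤ) - 1) (2 ^ (v + 1))).1 (by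
    push_cast
    rw [e4, sub_self])
  exact_mod_cast h

theorem Sol.two (H : Sol k v a b c d) : 2 ^ v ∣ c ∧ (2 : ℤ) ^ (v + 1) ∣ b - c - 1 := by
  have h0 := H.clt
  have h1 := H.pm (F := b - c) (Or.inl rfl) (by push_cast [h0.le]; ring)
  have h2 := H.pm (F := b + c) (Or.inr rfl) (by push_cast; ring)
  push_cast [h0.le] at h1 h2
  refine ⟨?_, h1⟩
  have h3 : (2 : ℤ) ^ v * 2 ∣ c * 2 := by
    have h4 := dvd_sub h2 h1
    rwa [pow_succ, show (b : ℤ) + c - 1 - (b - c - 1) = c * 2 by ring] at h4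
  exact_mod_cast (mul_dvd_mul_iff_right two_ne_zero).1 h3

theorem Sol.sub (H : Sol k v a b c d) {y : ℤ} (hy : y = a ∨ y = -a) :
    (b : ℤ) ^ k - y ^ k = (c ^ k + d ^ k : ℕ) := by
  have h := congrArg (Nat.cast : ℕ → ℤ) H.eq
  have : y ^ k = (a : ℤ) ^ k := by
    rcases hy with rfl | rfl
    · rfl
    · exact H.even.neg_pow _
  push_cast at h ⊢
  linarith

theorem Sol.near (H : Sol k v a b c d) : ∃ (y : ℤ) (u : ℕ), (y = a ∨ y = -a) ∧ Odd u ∧
    (b : ℤ) - y = (2 ^ 1 * u : ℕ) ∧ (2 : ℤ) ^ (v + 2) ∣ b + y := by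
  have h0 := H.alt
  have ha := Nat.odd_iff.1 H.ha
  have hb := Nat.odd_iff.1 H.odd
  have h := padicValNat.pow_two_sub_pow h0 (by omega) (by omega) H.k0 H.even
  have e : b ^ k - a ^ k = c ^ k + d ^ k := by
    have := H.eq
    omega
  have h1 : v * k ≤ padicValNat 2 (b ^ k - a ^ k) := by
    rw [e, ← padicValNat_dvd_iff_le (by have := H.d0; positivity), pow_mul]
    exact dvd_add (pow_dvd_pow_of_dvd H.two.1 k) (pow_dvd_pow_of_dvd H.symm.two.1 k)
  have h2 : 2 * padicValNat 2 k ≤ k :=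
    (Nat.mul_le_pow (by norm_num) _).trans (Nat.le_of_dvd (Nat.pos_of_ne_zero H.k0)
      pow_padicValNat_dvd)
  have h3 : v + k ≤ v * k + 1 := by
    have := H.hv
    have := H.hk
    nlinarith
  have hk := H.hk
  by_cases h4 : 2 ^ 2 ∣ b + a
  · have h5 : ¬ 2 ^ 2 ∣ b - a := by omega
    rw [padicValNat_dvd_iff_le (by omega)] at h5
    have h6 : 2 ^ (v + 2) ∣ b + a := (padicValNat_dvd_iff_le (by omega)).2 (by omega)
    refine ⟨a, (b - a) / 2, Or.inl rfl, by rw [Nat.odd_iff]; omega, by omega, ?_⟩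
    exact_mod_cast h6
  · have h5 := h4
    rw [padicValNat_dvd_iff_le (by omega)] at h5
    have h6 : 2 ^ (v + 2) ∣ b - a := (padicValNat_dvd_iff_le (by omega)).2 (by omega)
    refine ⟨-a, (b + a) / 2, Or.inr rfl, by rw [Nat.odd_iff]; omega, by omega, ?_⟩
    have h7 := Int.natCast_dvd_natCast.2 h6
    push_cast [h0.le] at h7
    rwa [← sub_eq_add_neg]

theorem Sol.val (H : Sol k v a b c d) {y : ℤ} (hy : y = a ∨ y = -a) {F j q : ℕ} (hF : F ≠ 0)
    (e : (b : ℤ) - y = (2 ^ j * F : ℕ)) (hq : q.Prime) (q2 : q ≠ 2)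
    (hqb : q % 2 ^ (v + 1) ≠ 1) (hd : q ∣ F) :
    padicValNat q (c ^ k + d ^ k) = padicValNat q F + padicValNat q k := by
  refine lte H.k0 hq q2 (by have := H.d0; positivity) hF (H.sub hy) e hd fun h => ?_
  refine H.nab hq q2 hqb ?_ h
  have h1 : (q : ℤ) ∣ b - y := e ▸ Int.natCast_dvd_natCast.2 (hd.mul_left _)
  have h2 := (dvd_iff_dvd_of_dvd_sub h1).1 (Int.natCast_dvd_natCast.2 h)
  rw [← Int.natCast_dvd_natCast]
  rcases hy with rfl | rfl
  · exact h2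
  · exact dvd_neg.1 h2

/-- one more factor `2` -/
theorem Sol.more (H : Sol k v a b c d) (hD : ∀ D, D ∣ k → D % 2 ^ (v + 1) ≠ 2 ^ v + 1) :
    2 ^ (v + 1) ∣ c := by
  obtain ⟨y, u, hy, hu, e, h1⟩ := H.near
  have e4 := prod_one H.hvk hu (fun q => padicValNat q k) fun q hq hd hqb => by
    have q2 : q ≠ 2 := by
      rintro rfl
      exact hu.not_two_dvd_nat hd
    rw [← H.val hy hu.pos.ne' e hq q2 hqb hd]
    exact val_sum H.k0 H.hvk hq q2 hqb d c H.d0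
  have hd := corr_dvd k (u.primeFactors.filter (fun q => q % 2 ^ (v + 1) ≠ 1))
    fun q hq => Nat.prime_of_mem_primeFactors (mem_filter.1 hq).1
  generalize ∏ q ∈ u.primeFactors.filter (fun q => q % 2 ^ (v + 1) ≠ 1), q ^ padicValNat q k = D
    at e4 hd
  have h2 : (2 : ℤ) ^ (v + 1) ∣ u * D - 1 := by
    have h := (ZMod.intCast_zmod_eq_zero_iff_dvd ((u * D : ℕ) - 1) (2 ^ (v + 1))).1 (by
      rw [Int.cast_sub, Int.cast_natCast, e4, Int.cast_one, sub_self])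
    exact_mod_cast h
  obtain ⟨⟨c', rfl⟩, h3⟩ := H.two
  obtain ⟨w, rfl⟩ := Nat.exists_eq_add_of_le' H.hv
  rcases Nat.even_or_odd' c' with ⟨t, rfl | rfl⟩
  · exact ⟨t, by ring⟩
  · refine absurd ?_ (hD D hd)
    obtain ⟨z1, h1⟩ := h1
    obtain ⟨z2, h2⟩ := h2
    obtain ⟨z3, h3⟩ := h3
    have h4 : (2 ^ (w + 1) + 1) ≡ D [MOD 2 ^ (w + 1 + 1)] := by
      rw [Nat.modEq_iff_dvd]
      refine ⟨(2 ^ (w + 1) + 1) * (z2 + D * (z1 - z3 - t)) - (1 + 2 ^ w) * D, ?_⟩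
      push_cast at e h3 ⊢
      have h5 : (b : ℤ) = 2 ^ (w + 2) * z1 + u :=
        mul_left_cancel₀ two_ne_zero (by linear_combination h1 + e)
      linear_combination (2 ^ (w + 1) + 1) * (h2 + (D : ℤ) * (h5 - h3))
    rw [← h4, Nat.mod_eq_of_lt]
    have := Nat.one_lt_two_pow (Nat.succ_ne_zero w)
    rw [pow_succ 2 (w + 1)]
    omega

/-- the size of a solution -/
theorem Sol.size (H : Sol k v a b c d) {l : ℕ} (hl : l.Prime) (hlk : l ∣ k) (h3 : l % 4 = 3)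
    (hg : Nat.gcd k (l - 1) = 2) : l ^ k < 2 * k * b := by
  have : Fact l.Prime := ⟨hl⟩
  have h2 : l ≠ 2 := by omega
  have hb : l % 2 ^ (v + 1) ≠ 1 := by
    intro h
    have h4 : 2 ^ 2 ∣ 2 ^ (v + 1) := pow_dvd_pow 2 (by have := H.hv; omega)
    have := Nat.mod_mod_of_dvd l h4
    rw [h] at this
    omega
  obtain ⟨hc, hd⟩ := H.ell hl h2 hb hlk
  have hs : l ^ k ∣ c ^ k + d ^ k := dvd_add (pow_dvd_pow_of_dvd hc k) (pow_dvd_pow_of_dvd hd k)
  have a0 : (a : ZMod l) ≠ 0 := fun e => H.prim l hl ((ZMod.natCast_eq_zero_iff a l).1 e) hc hd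
  have e1 : ((b : ZMod l) / a) ^ k = 1 := by
    have h := congrArg (Nat.cast : ℕ → ZMod l) H.eq
    push_cast at h
    rw [(ZMod.natCast_eq_zero_iff c l).2 hc, (ZMod.natCast_eq_zero_iff d l).2 hd,
      zero_pow H.k0, add_zero, add_zero] at h
    rw [div_pow, ← h, div_self (pow_ne_zero _ a0)]
  have z0 : (b : ZMod l) / a ≠ 0 := by
    intro h
    rw [h, zero_pow H.k0] at e1
    exact zero_ne_one e1
  have e2 : ((b : ZMod l) / a) ^ 2 = 1 :=
    hg ▸ pow_gcd_eq_one.2 ⟨e1, ZMod.pow_card_sub_one_eq_one z0⟩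
  have h0 := H.alt
  have key : ∃ (y : ℤ) (F : ℕ), (y = a ∨ y = -a) ∧ F ≠ 0 ∧ F < 2 * b ∧
      (b : ℤ) - y = (2 ^ 0 * F : ℕ) ∧ l ∣ F := by
    rcases sq_eq_one_iff.1 e2 with h | h
    · refine ⟨a, b - a, Or.inl rfl, by omega, by omega, by omega, ?_⟩
      rw [← ZMod.natCast_eq_zero_iff, Nat.cast_sub h0.le, (div_eq_one_iff_eq a0).1 h, sub_self]
    · refine ⟨-a, b + a, Or.inr rfl, by omega, by omega, by omega, ?_⟩
      rw [← ZMod.natCast_eq_zero_iff, Nat.cast_add, (div_eq_iff a0).1 h]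
      ring
  obtain ⟨y, F, hy, F0, hF, e, hd'⟩ := key
  have h5 := H.val hy F0 e hl h2 hb hd'
  rw [← padicValNat.mul F0 H.k0] at h5
  rw [padicValNat_dvd_iff_le (by have := H.d0; positivity), h5,
    ← padicValNat_dvd_iff_le (mul_ne_zero F0 H.k0)] at hs
  have h6 := Nat.le_of_dvd (Nat.pos_of_ne_zero (mul_ne_zero F0 H.k0)) hs
  have := Nat.pos_of_ne_zero H.k0
  nlinarith

theorem Sol.size_two (H : Sol k v a b c d) {t : ℕ} (hc : 2 ^ t ∣ c) (hd : 2 ^ t ∣ d) :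
    (2 ^ t) ^ k < 2 * k * b := by
  have h0 := H.alt
  have ha := Nat.odd_iff.1 H.ha
  have hb := Nat.odd_iff.1 H.odd
  have h := padicValNat.pow_two_sub_pow h0 (by omega) (by omega) H.k0 H.even
  have e : b ^ k - a ^ k = c ^ k + d ^ k := by
    have := H.eq
    omega
  have h1 : t * k ≤ padicValNat 2 (b ^ k - a ^ k) := by
    rw [e, ← padicValNat_dvd_iff_le (by have := H.d0; positivity), pow_mul]
    exact dvd_add (pow_dvd_pow_of_dvd hc k) (pow_dvd_pow_of_dvd hd k)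
  have key : ∃ F, F ≠ 0 ∧ F < 2 * b ∧ t * k ≤ padicValNat 2 F + padicValNat 2 k := by
    by_cases h4 : 2 ^ 2 ∣ b + a
    · have h5 : ¬ 2 ^ 2 ∣ b - a := by omega
      rw [padicValNat_dvd_iff_le (by omega)] at h5
      exact ⟨b + a, by omega, by omega, by omega⟩
    · rw [padicValNat_dvd_iff_le (by omega)] at h4
      exact ⟨b - a, by omega, by omega, by omega⟩
  obtain ⟨F, F0, hF, h2⟩ := key
  rw [← padicValNat.mul F0 H.k0, ← padicValNat_dvd_iff_le (mul_ne_zero F0 H.k0), pow_mul] at h2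
  have h6 := Nat.le_of_dvd (Nat.pos_of_ne_zero (mul_ne_zero F0 H.k0)) h2
  have := Nat.pos_of_ne_zero H.k0
  nlinarith

end Pool.Agent.MP_3d0a02_nt.E
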